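import Pool.Agent.Work.MP_33c03a_lc.G.Fin

/-!
# Under MRP the clubs of V give a generic filter on every ladder of the generic ultrapower

The first clause is the combinatorial form (every dense open family contains the trace of a club),
the second one its form for an arbitrary normal homomorphism `h`, with the base of the generic
filter in the complete subalgebra `B0` generated by the ladder real; the third clause is the
resulting domination of the reals of `M₀`; the last ones are the case in which all reals of the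
extension by `B` are in `M₀`: the traces generate a Ramsey ultrafilter, `B` is `ω^ω`-bounding over
`B0` and adds no Cohen real over `B0`.

* `Ladders f`: for every limit `d < ω₁`, `f d` is a continuous map from `[0,d)` to `ω` with bounded
  fibres (for example: `f d x` is the number of elements below `x` of a cofinal subset of `d` of
  type `ω`).  `Tr f C d` is the image of `C ∩ d` under `f d`.
* `DO Q`: `Q` is a dense open family of infinite subsets of `ω` (for almost inclusion).
* `NH h`: `h` is a normal homomorphism from the power set of `ω₁` to the complete Boolean algebra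
  `B`.  If `j` is a generic elementary embedding with critical point `ω₁`, defined in the extension
  by `B`, then `h A = [[ω₁ ∈ j(A)]]` is such a homomorphism.  The elements of the transitive
  collapse `M₀` of `{j(F)(ω₁)}` are given by functions `F` on `ω₁`.
* `Sub h f B0`: `B0` is a complete subalgebra of `B` which contains all the values
  `h {d | x < d, f d x = n}`, i.e. the values of the name of the real `j(f)(ω₁)`.
* `Full h`: every real of the extension by `B` is in `M₀`.
* `CohenOver B0 a c`: `a` forces that `c` is a Cohen real over the extension by `B0`.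
-/

set_option autoImplicit false

open Set MP33c03aR MP33c03aG

universe u

namespace Pool.Agent.Results.MP_33c03a_lc.GenericTraces

theorem result : MRP →
    (∀ (f : W1 → W1 → ℕ) (Q : W1 → Set (Set ℕ)), Ladders f → (∀ d, DO (Q d)) →
      ∃ C, IsClb C ∧ ∀ d, LimPt C d → Tr f C d ∈ Q d) ∧
    ∀ (B : Type u) [CompleteBooleanAlgebra B] (h : Set W1 → B), NH h →
      ∀ f : W1 → W1 → ℕ, Ladders f → ∀ B0 : Set B, Sub h f B0 →
        (∀ Q : W1 → Set (Set ℕ), (∀ d, DO (Q d)) → ∃ C, IsClb C ∧
          h {d | Tr f C d ∈ Q d ∧ (Tr f C d).Infinite} = ⊤ ∧ ∀ n, h {d | n ∈ Tr f C d} ∈ B0) ∧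
        (∀ F : W1 → ℕ → ℕ, ∃ z : W1 → ℕ → ℕ, (∀ n m, h {d | z d n = m} ∈ B0) ∧
          h {d | ∃ k, ∀ n ≥ k, F d n ≤ z d n} = ⊤) ∧
        (Full h →
          (∀ (c : ℕ → ℕ → B) (a : B), a ≠ ⊥ → ∃ a' ≤ a, a' ≠ ⊥ ∧ ∃ C, IsClb C ∧
            h {d | (Tr f C d).Infinite} = ⊤ ∧ (∀ n, h {d | n ∈ Tr f C d} ∈ B0) ∧ ∃ k,
              (∀ n m, k ≤ n → n < m → a' ⊓ h {d | n ∈ Tr f C d ∧ m ∈ Tr f C d} ≤ c n m) ∨
              (∀ n m, k ≤ n → n < m → a' ⊓ h {d | n ∈ Tr f C d ∧ m ∈ Tr f C d} ≤ (c n m)ᶜ)) ∧
          (∀ x : ℕ → ℕ → B, (∀ n, ⨆ m, x n m = ⊤) → ∀ a : B, a ≠ ⊥ → ∃ a' ≤ a, a' ≠ ⊥ ∧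
            ∃ z : W1 → ℕ → ℕ, (∀ n m, h {d | z d n = m} ∈ B0) ∧
              ∃ k, ∀ n ≥ k, a' ≤ ⨆ m, x n m ⊓ h {d | m ≤ z d n}) ∧
          ∀ (c : ℕ → B) (a : B), CohenOver B0 a c → a = ⊥) := by
  intro hM
  have hP : PG := mrp_pg hM
  exact ⟨hP, fun B _ h hh f hf B0 hB0 =>
    ⟨fin_Gn hP B h hh f hf B0 hB0, fin_Dm hP B h hh f hf B0 hB0, fun hF =>
      ⟨fin_Ra hP B h hh hF f hf B0 hB0, fin_Bd hP B h hh hF f hf B0 hB0,
        fin_Co hP B h hh hF f hf B0 hB0⟩⟩⟩

end Pool.Agent.Results.MP_33c03a_lc.GenericTraces
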