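import Pool.Agent.Work.MP_33c03a_lc.Final

/-!
# Under MRP the real which codes j(e)(ω₁) is not generic for a small forcing

* `W1` is the well order `ω₁`; `Enums e`: `e d : ℕ → d` is a bijection for every infinite `d < ω₁`.
* `NH h`: `h` is a normal homomorphism from the power set of `ω₁` to the complete Boolean
  algebra `B`.  If `j` is a generic elementary embedding with critical point `ω₁`, defined in the
  extension by `B`, then `h A = [[ω₁ ∈ j(A)]]` is such a homomorphism, and
  `h {d | e d m < e d n}` is the Boolean value of `j(e)(ω₁)(m) < j(e)(ω₁)(n)`.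
* `SmallSub B0`: `B0` is a complete subalgebra of `B` with a dense subset of size at most `ℵ₁`.
* `MRP` is the Mapping Reflection Principle; `LM W1` says that every ladder system on `ω₁` is
  avoided by a club (this follows from `MRP`).
-/

set_option autoImplicit false

open Set MP33c03aR

universe u

namespace Pool.Agent.Results.MP_33c03a_lc.NoSmallGenericReal

theorem result : (MRP ∨ LM W1) → ∀ (B : Type u) [CompleteBooleanAlgebra B] [Nontrivial B],
    (∀ h : Set W1 → B, NH h → ∀ e : W1 → ℕ → W1, Enums e → ∀ B0 : Set B, SmallSub B0 →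
      ∃ m n : ℕ, h {d | (Iio d).Infinite ∧ e d m < e d n} ∉ B0) ∧
    ((∀ E : Set B, E.Countable → ∃ B0 : Set B, E ⊆ B0 ∧ SmallSub B0) →
      ¬ ∃ h : Set W1 → B, NH h) :=
  fun hH B _ _ => ⟨fun h hh e he B0 hB0 => final_local hH B h hh e he B0 hB0,
    fun hB => final_global hH B hB⟩

end Pool.Agent.Results.MP_33c03a_lc.NoSmallGenericReal
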